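import Pool.Agent.Helper54.UN.St

/-!
# Project UN, part (C), module VEI: labels near the vertex `-a`
-/

set_option autoImplicit false

noncomputable section

namespace Pool.Agent.Helper37.UNC

open Set Filter Topology Pool.Agent.Helper71.UN Pool.Agent.Helper54.UN

set_option linter.unusedVariables false in
private theorem vei_real {D0 D1 D5 D6 e X d0 d1 d5 d6 t01 t15 t60 t61 t05 e0 e1 e5 : ℝ}
    (hd0 : 0 < d0) (hd1 : 0 < d1) (hd5 : d5 < 0) (hd6 : d6 < 0)
    (ht01 : 0 < t01) (ht15 : 0 < t15) (ht60 : 0 < t60) (ht61 : 0 < t61) (ht05 : 0 < t05)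
    (he0 : e0 < 0) (he1 : e1 < 0) (he5 : 0 < e5)
    (P1 : t01 * X = -D1 * d0 + D0 * d1) (P2 : t01 * e = -D1 * e0 + D0 * e1)
    (P3 : t15 * X = -D5 * d1 + D1 * d5) (P4 : t60 * X = -D0 * d6 + D6 * d0)
    (P5 : t61 * X = -D1 * d6 + D6 * d1) (P6 : t05 * e = -D5 * e0 + D0 * e5)
    (r0 : D0 = 0 → X < 0) (r1 : D1 = 0 → X < 0) (r5 : D5 = 0 → 0 < X)
    (rz : ¬ (D0 = 0 ∧ X = 0)) :
    (0 < X → D0 ≤ 0 → ¬ (D5 < 0 ∧ 0 < D1) ∧ (0 < e ∨ D0 < 0)) ∧
    (0 < X → 0 < D0 → D1 ≤ 0 → ¬ (D5 < 0 ∧ 0 < D1) ∧ ¬ (0 < e ∨ D0 < 0)) ∧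
    (0 < X → 0 < D1 → (D5 < 0 ∧ 0 < D1)) ∧
    (X ≤ 0 → 0 ≤ D6 → ¬ (D5 < 0 ∧ 0 < D1) ∧ (0 < e ∨ D0 < 0)) ∧
    (X ≤ 0 → D6 < 0 → 0 ≤ D5 → ¬ (D5 < 0 ∧ 0 < D1) ∧ (0 < e ∨ D0 < 0)) ∧
    (X ≤ 0 → D6 < 0 → D5 < 0 → (D5 < 0 ∧ 0 < D1)) := by
  refine ⟨?_, ?_, ?_, ?_, ?_, ?_⟩
  · intro hX h0
    have h0' : D0 < 0 := lt_of_le_of_ne h0 fun h => by linarith [r0 h]
    have h1 : D1 < 0 := by
      by_contra h
      have h := not_lt.1 h
      have a1 := mul_pos ht01 hX
      have a2 := mul_nonneg h hd0.le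
      have a3 := mul_pos (neg_pos.2 h0') hd1
      nlinarith
    exact ⟨fun h => by linarith [h.2], Or.inr h0'⟩
  · intro hX h0 h1
    refine ⟨fun h => by linarith [h.2], ?_⟩
    rintro (h | h)
    · have a1 := mul_pos ht01 h
      have a2 := mul_nonneg (neg_nonneg.2 h1) (neg_pos.2 he0).le
      have a3 := mul_pos h0 (neg_pos.2 he1)
      nlinarith
    · linarith
  · intro hX h1
    refine ⟨?_, h1⟩
    by_contra h
    have h := not_lt.1 h
    have a1 := mul_pos ht15 hX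
    have a2 := mul_nonneg h hd1.le
    have a3 := mul_pos h1 (neg_pos.2 hd5)
    nlinarith
  · intro hX h6
    have b0 : D0 ≤ 0 := by
      by_contra h
      have h := not_le.1 h
      have a1 := mul_nonneg ht60.le (neg_nonneg.2 hX)
      have a2 := mul_nonneg h6 hd0.le
      have a3 := mul_pos h (neg_pos.2 hd6)
      nlinarith
    have b1 : D1 ≤ 0 := by
      by_contra h
      have h := not_le.1 h
      have a1 := mul_nonneg ht61.le (neg_nonneg.2 hX)
      have a2 := mul_nonneg h6 hd1.le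
      have a3 := mul_pos h (neg_pos.2 hd6)
      nlinarith
    have b0' : D0 < 0 := by
      refine lt_of_le_of_ne b0 fun h => ?_
      apply rz
      refine ⟨h, ?_⟩
      rw [h] at P4
      by_contra hne
      have hX' : X < 0 := lt_of_le_of_ne hX hne
      have a1 := mul_pos ht60 (neg_pos.2 hX')
      have a2 := mul_nonneg h6 hd0.le
      nlinarith
    exact ⟨fun h => by linarith [h.2], Or.inr b0'⟩
  · intro hX h6 h5
    have h5' : 0 < D5 := lt_of_le_of_ne h5 fun h => by linarith [r5 h.symm]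
    refine ⟨fun h => by linarith [h.1], ?_⟩
    by_cases h0 : D0 < 0
    · exact Or.inr h0
    · left
      have h0 := not_lt.1 h0
      by_contra h
      have h := not_lt.1 h
      have a1 := mul_nonneg ht05.le (neg_nonneg.2 h)
      have a2 := mul_pos h5' (neg_pos.2 he0)
      have a3 := mul_nonneg h0 he5.le
      nlinarith
  · intro hX h6 h5
    refine ⟨h5, ?_⟩
    by_contra h
    have h := not_lt.1 h
    have a1 := mul_nonneg ht15.le (neg_nonneg.2 hX)
    have a2 := mul_pos (neg_pos.2 h5) hd1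
    have a3 := mul_nonneg (neg_nonneg.2 h) (neg_pos.2 hd5).le
    nlinarith

/-- **VEI** -/
theorem hVEI (hU : StU) : StVEI := by
  intro k l a b τ g hG
  have c6 : ∀ᶠ z in 𝓝 (0 : ℂ), 0 < lf om (-1) (a - z) :=
    evp (f := fun z => lf om (-1) (a - z)) ((continuous_lf _ _).comp (continuous_const.sub continuous_id))
      (by simpa using hG.f6a)
  have c7 : ∀ᶠ z in 𝓝 (0 : ℂ), 0 < lf (-om) 1 (a - z) :=
    evp (f := fun z => lf (-om) 1 (a - z)) ((continuous_lf _ _).comp (continuous_const.sub continuous_id))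
      (by simpa using hG.f7a)
  have c4 : ∀ᶠ z in 𝓝 (0 : ℂ), 0 < lf 1 b (a - z) :=
    evp (f := fun z => lf 1 b (a - z)) ((continuous_lf _ _).comp (continuous_const.sub continuous_id))
      (by simpa using hG.f4a)
  have c2 : ∀ᶠ z in 𝓝 (0 : ℂ), 0 < lf b om (a - z) :=
    evp (f := fun z => lf b om (a - z)) ((continuous_lf _ _).comp (continuous_const.sub continuous_id))
      (by simpa using hG.f2a)
  have c3 : ∀ᶠ z in 𝓝 (0 : ℂ), lf τ b (a - z) < 0 :=
    evn (f := fun z => lf τ b (a - z)) ((continuous_lf _ _).comp (continuous_const.sub continuous_id))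
      (by simpa using hG.g3a)
  have ce : ∀ᶠ z in 𝓝 (0 : ℂ), 0 < el (a - z) :=
    evp (f := fun z => el (a - z)) (continuous_el.comp (continuous_const.sub continuous_id))
      (by simpa using hG.ea)
  filter_upwards [c6, c7, c4, c2, c3, ce] with z n6 n7 n4 n2 n3 ne r0 r1 r5
  have hx : -a + z = -(a - z) := by ring
  rw [hx, lam_even, hU k l a b τ g hG _ ne]
  have E5 : lf 1 a (a - z) = - dt (a - 1) z := by
    simp only [lf_eq, dt_eq, Complex.sub_re, Complex.sub_im, Complex.one_re, Complex.one_im]; ring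
  have E1 : lf a om (a - z) = dt (a - om) z := by
    simp only [lf_eq, dt_eq, Complex.sub_re, Complex.sub_im]; ring
  have Ed : lf a b (a - z) = - dt (b - a) z := by
    simp only [lf_eq, dt_eq, Complex.sub_re, Complex.sub_im]; ring
  have E0 : lf τ a (a - z) = - dt (a - τ) z := by
    simp only [lf_eq, dt_eq, Complex.sub_re, Complex.sub_im]; ring
  have hlam : lamU k l a b τ (a - z) =
      if dt (a - 1) z < 0 ∧ 0 < dt (a - om) z then 0
      else if 0 < dt (b - a) z ∨ dt (a - τ) z < 0 then k else l := by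
    unfold lamU
    have i1 : (0 < lf 1 a (a - z) ∧ 0 < lf a om (a - z) ∧ 0 < lf om (-1) (a - z) ∧
        0 < lf (-om) 1 (a - z)) ↔ (dt (a - 1) z < 0 ∧ 0 < dt (a - om) z) := by
      rw [E5, E1]
      constructor
      · rintro ⟨h, h', -, -⟩
        exact ⟨by linarith, h'⟩
      · rintro ⟨h, h'⟩
        exact ⟨by linarith, h', n6, n7⟩
    have i2 : ¬ (lf 1 b (a - z) < 0 ∨ lf b om (a - z) < 0 ∨ lf om (-1) (a - z) < 0 ∨
        lf (-om) 1 (a - z) < 0) := by
      rintro (h | h | h | h) <;> linarith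
    have i3 : (lf a b (a - z) < 0 ∨ (0 < lf τ a (a - z) ∧ lf τ b (a - z) < 0)) ↔
        (0 < dt (b - a) z ∨ dt (a - τ) z < 0) := by
      rw [Ed, E0]
      constructor
      · rintro (h | ⟨h, -⟩)
        · exact Or.inl (by linarith)
        · exact Or.inr (by linarith)
      · rintro (h | h)
        · exact Or.inl (by linarith)
        · exact Or.inr ⟨by linarith, n3⟩
    simp only [i1, i2, i3, if_false]
  rw [hlam]
  obtain ⟨q1, q2, q3, q4, q5, q6⟩ := vei_real (D0 := dt (a - τ) z) (D1 := dt (a - om) z)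
    (D5 := dt (a - 1) z) (D6 := dt (-(1 + om)) z) (e := dt (b - a) z) (X := z.re)
    hG.d0 hG.d1 hG.d5 hG.d6 hG.t01 hG.t15 hG.t60 hG.t61 hG.t05 hG.e0 hG.e1 hG.e5
    (plu _ _ _) (plu3 _ _ _ _) (plu _ _ _) (plu _ _ _) (plu _ _ _) (plu3 _ _ _ _)
    (ofr_neg hG.d0 r0) (ofr_neg hG.d1 r1) (ofr_pos hG.d5 r5) (by
      rintro ⟨h1, h2⟩
      apply ofr_ne r0
      rw [dt_eq, h2, mul_zero, sub_zero] at h1
      have h3 : z.im = 0 := by
        rcases mul_eq_zero.1 h1 with h | h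
        · exact absurd h hG.d0.ne'
        · exact h
      exact Complex.ext h2 h3)
  unfold stN
  by_cases hX : 0 < z.re
  · rw [if_pos hX]
    by_cases h0 : dt (a - τ) z ≤ 0
    · rw [if_pos h0, if_neg (q1 hX h0).1, if_pos (q1 hX h0).2]
      rfl
    · rw [if_neg h0]
      have h0 := not_le.1 h0
      by_cases h1 : dt (a - om) z ≤ 0
      · rw [if_pos h1, if_neg (q2 hX h0 h1).1, if_neg (q2 hX h0 h1).2]
        rfl
      · rw [if_neg h1, if_pos (q3 hX (not_le.1 h1))]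
        split_ifs <;> rfl
  · rw [if_neg hX]
    have hX := not_lt.1 hX
    by_cases h6 : 0 ≤ dt (-(1 + om)) z
    · rw [if_pos h6, if_neg (q4 hX h6).1, if_pos (q4 hX h6).2]
      rfl
    · rw [if_neg h6]
      have h6 := not_le.1 h6
      by_cases h5 : 0 ≤ dt (a - 1) z
      · rw [if_pos h5, if_neg (q5 hX h6 h5).1, if_pos (q5 hX h6 h5).2]
        rfl
      · rw [if_neg h5, if_pos (q6 hX h6 (not_le.1 h5))]
        split_ifs <;> rfl

end Pool.Agent.Helper37.UNC
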